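import Pool.Agent.Helper70.DK.Defs2

set_option autoImplicit false

namespace Pool.Agent.Helper70.DK

open Finset MeasureTheory

theorem dpts_coords (m : ℕ) : ∀ (d : ℕ) (Γ : Submodule ℝ (Fin m → ℝ)), Module.finrank ℝ Γ ≤ d →
    ∃ S : Finset (Fin m), S.card ≤ Module.finrank ℝ Γ ∧ ∀ g ∈ Γ, (∀ c ∈ S, g c = 0) → g = 0 := by
  classical
  intro d
  induction d with
  | zero =>
    intro Γ h
    refine ⟨∅, by simp, fun g hg _ => ?_⟩
    have : Γ = ⊥ := Submodule.finrank_eq_zero.1 (Nat.le_zero.1 h)
    rw [this] at hg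
    exact (Submodule.mem_bot ℝ).1 hg
  | succ d ih =>
    intro Γ h
    by_cases hb : ∃ g ∈ Γ, g ≠ 0
    · obtain ⟨g, hg, hg0⟩ := hb
      obtain ⟨c, hc⟩ : ∃ c, g c ≠ 0 := by
        by_contra hno
        push Not at hno
        exact hg0 (funext hno)
      let Γ' : Submodule ℝ (Fin m → ℝ) := Γ ⊓ LinearMap.ker (LinearMap.proj (R := ℝ) (φ := fun _ => ℝ) c)
      have hle : Γ' ≤ Γ := inf_le_left
      have hlt : Γ' < Γ := by
        refine lt_of_le_of_ne hle (fun he => hc ?_)
        have : g ∈ Γ' := by rw [he]; exact hg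
        exact (LinearMap.mem_ker.1 this.2)
      have hfr : Module.finrank ℝ Γ' < Module.finrank ℝ Γ := Submodule.finrank_lt_finrank_of_lt hlt
      obtain ⟨S, hS, hS2⟩ := ih Γ' (by omega)
      refine ⟨insert c S, (card_insert_le _ _).trans (by omega), fun u hu huS => ?_⟩
      refine hS2 u ⟨hu, ?_⟩ (fun c' hc' => huS c' (mem_insert_of_mem hc'))
      exact LinearMap.mem_ker.2 (huS c (mem_insert_self _ _))
    · push Not at hb
      exact ⟨∅, by simp, fun g hg _ => hb g hg⟩

theorem st_DPTS : ST_DPTS := by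
  classical
  intro m N Γ F hN hF hd
  obtain ⟨S, hS, hS2⟩ := dpts_coords m _ Γ le_rfl
  let T : Finset (S → ℤ) := Fintype.piFinset (fun _ => Finset.Ico (0 : ℤ) N)
  have hT : T.card = N ^ S.card := by
    simp [T, Fintype.card_piFinset]
  have h1 : F.card ≤ T.card := by
    refine card_le_card_of_injOn (fun z (c : S) => z c) ?_ ?_
    · intro z hz
      refine Fintype.mem_piFinset.2 (fun c => ?_)
      rw [mem_Ico]
      exact hF z hz c
    · intro z hz z' hz' he
      have h2 := hS2 _ (hd z hz z' hz') (fun c hc => by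
        have := congrFun he ⟨c, hc⟩
        simp only at this
        rw [this, sub_self, Int.cast_zero])
      funext c
      have h3 := congrFun h2 c
      simp only [Pi.zero_apply] at h3
      have h4 : z c - z' c = 0 := by exact_mod_cast h3
      linarith
  rw [hT] at h1
  exact h1.trans (Nat.pow_le_pow_right hN hS)

end Pool.Agent.Helper70.DK
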