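import Pool.Agent.Helper70.DK.Defs2

set_option autoImplicit false

namespace Pool.Agent.Helper70.DK

open Finset MeasureTheory

theorem subl_prod_ge (s : Multiset ℂ) (t a : ℝ) (ha : 0 ≤ a) (h : ∀ z ∈ s, a ≤ |t - z.re|) :
    a ^ (Multiset.card s) ≤ ‖(s.map (fun z => (t : ℂ) - z)).prod‖ := by
  induction s using Multiset.induction with
  | empty => simp
  | cons z s ih =>
    rw [Multiset.card_cons, pow_succ', Multiset.map_cons, Multiset.prod_cons, norm_mul]
    refine mul_le_mul ?_ (ih (fun w hw => h w (Multiset.mem_cons_of_mem hw))) (by positivity)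
      (norm_nonneg _)
    refine (h z (Multiset.mem_cons_self z s)).trans ?_
    have := Complex.abs_re_le_norm ((t : ℂ) - z)
    simpa using this

theorem st_SUBL : ST_SUBL := by
  classical
  intro p ε hlead hdeg hε
  set r := p.natDegree with hr
  have hr0 : (0 : ℝ) < r := by exact_mod_cast hdeg
  set a : ℝ := ε ^ ((1 : ℝ) / r) with ha
  have ha0 : 0 < a := Real.rpow_pos_of_pos hε _
  have har : a ^ r = ε := by
    rw [ha, ← Real.rpow_natCast, ← Real.rpow_mul hε.le, one_div, inv_mul_cancel₀ hr0.ne',
      Real.rpow_one]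
  let q : Polynomial ℂ := p.map (algebraMap ℝ ℂ)
  have hsp : q.Splits := IsAlgClosed.splits q
  have hqd : q.natDegree = r := Polynomial.natDegree_map _
  have hcard : Multiset.card q.roots = r := by
    rw [← hqd]; exact hsp.natDegree_eq_card_roots.symm
  have hsub : {t : ℝ | |p.eval t| < ε} ⊆ ⋃ z ∈ q.roots.toFinset, Metric.ball (z.re) a := by
    intro t ht
    by_contra hno
    simp only [Set.mem_iUnion, Multiset.mem_toFinset, Metric.mem_ball, not_exists, not_lt,
      Real.dist_eq] at hno
    have h1 := subl_prod_ge q.roots t a ha0.le (fun z hz => hno z hz)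
    rw [hcard, har] at h1
    have h2 := hsp.eval_eq_prod_roots (t : ℂ)
    have h3 : q.eval (t : ℂ) = ((p.eval t : ℝ) : ℂ) := by
      have := Polynomial.eval_map_algebraMap p (t : ℂ)
      simp only [q]
      rw [this]
      exact Polynomial.aeval_algebraMap_apply ℂ t p |>.trans (by simp)
    have h4 : ‖q.leadingCoeff‖ = |p.leadingCoeff| := by
      simp only [q]
      rw [Polynomial.leadingCoeff_map, Complex.coe_algebraMap, Complex.norm_real, Real.norm_eq_abs]
    have h5 : |p.eval t| = ‖q.leadingCoeff‖ * ‖(q.roots.map (fun z => (t : ℂ) - z)).prod‖ := by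
      rw [← norm_mul, ← h2, h3, Complex.norm_real, Real.norm_eq_abs]
    have h6 : ε ≤ |p.eval t| := by
      rw [h5, h4]
      calc ε = 1 * ε := (one_mul _).symm
        _ ≤ _ := mul_le_mul hlead h1 hε.le (abs_nonneg _)
    exact absurd ht (not_lt.2 h6)
  refine (measure_mono hsub).trans ((measure_biUnion_finset_le _ _).trans ?_)
  simp only [Real.volume_ball, Finset.sum_const, nsmul_eq_mul]
  have h7 : (q.roots.toFinset.card : ENNReal) ≤ (r : ENNReal) := by
    exact_mod_cast (Multiset.toFinset_card_le _).trans hcard.le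
  refine (mul_le_mul_left h7 _).trans (le_of_eq ?_)
  rw [← ENNReal.ofReal_natCast, ← ENNReal.ofReal_mul hr0.le]
  congr 1
  ring

end Pool.Agent.Helper70.DK
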