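import Pool.Agent.Helper70.DK.Defs2

set_option autoImplicit false

namespace Pool.Agent.Helper70.DK

open Finset MeasureTheory

/-- remainders of the mixed radix expansion -/
noncomputable def moranR (n : ℕ → ℕ) : ℕ → ℝ → ℝ
  | 0, y => y
  | j + 1, y => Int.fract ((n j : ℝ) * moranR n j y)

/-- digits of the mixed radix expansion -/
noncomputable def moranD (n : ℕ → ℕ) (y : ℝ) (j : ℕ) : ℕ := ⌊(n j : ℝ) * moranR n j y⌋₊

theorem moran_R_mem (n : ℕ → ℕ) {y : ℝ} (hy : y ∈ Set.Ico (0 : ℝ) 1) (j : ℕ) :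
    moranR n j y ∈ Set.Ico (0 : ℝ) 1 := by
  cases j with
  | zero => exact hy
  | succ j => exact ⟨Int.fract_nonneg _, Int.fract_lt_one _⟩

theorem moran_D_lt (n : ℕ → ℕ) (hn : ∀ j, 1 ≤ n j) {y : ℝ} (hy : y ∈ Set.Ico (0 : ℝ) 1) (j : ℕ) :
    moranD n y j < n j := by
  have h := moran_R_mem n hy j
  have h1 : (0 : ℝ) < n j := by exact_mod_cast hn j
  unfold moranD
  rw [Nat.floor_lt (mul_nonneg h1.le h.1)]
  nlinarith [h.2]

theorem moran_eq (n : ℕ → ℕ) {y y' : ℝ} (hy : y ∈ Set.Ico (0 : ℝ) 1)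
    (hy' : y' ∈ Set.Ico (0 : ℝ) 1) (j : ℕ) (h : ∀ i < j, moranD n y i = moranD n y' i) :
    (∏ i ∈ range j, (n i : ℝ)) * (y - y') = moranR n j y - moranR n j y' := by
  induction j with
  | zero => simp [moranR]
  | succ j ih =>
    have ih' := ih (fun i hi => h i (Nat.lt_succ_of_lt hi))
    have h1 := h j (Nat.lt_succ_self j)
    have e : ∀ z : ℝ, z ∈ Set.Ico (0 : ℝ) 1 →
        (n j : ℝ) * moranR n j z = moranD n z j + moranR n (j + 1) z := by
      intro z hz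
      have h2 := moran_R_mem n hz j
      have h3 : (0 : ℝ) ≤ n j * moranR n j z := mul_nonneg (Nat.cast_nonneg _) h2.1
      have h4 : ((moranD n z j : ℕ) : ℝ) = (⌊(n j : ℝ) * moranR n j z⌋ : ℝ) := by
        unfold moranD
        exact natCast_floor_eq_intCast_floor h3
      rw [h4]
      exact (Int.floor_add_fract _).symm
    have e1 := e y hy
    have e2 := e y' hy'
    rw [prod_range_succ]
    rw [h1] at e1
    have : (∏ i ∈ range j, (n i : ℝ)) * (n j : ℝ) * (y - y') =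
        n j * ((∏ i ∈ range j, (n i : ℝ)) * (y - y')) := by ring
    rw [this, ih', mul_sub, e1, e2]
    ring

theorem moran_abs (n : ℕ → ℕ) {y y' : ℝ} (hy : y ∈ Set.Ico (0 : ℝ) 1)
    (hy' : y' ∈ Set.Ico (0 : ℝ) 1) (j : ℕ) (h : ∀ i < j, moranD n y i = moranD n y' i) :
    (∏ i ∈ range j, (n i : ℝ)) * |y - y'| ≤ 1 := by
  have h1 := moran_eq n hy hy' j h
  have h2 : 0 ≤ (∏ i ∈ range j, (n i : ℝ)) := prod_nonneg (fun _ _ => Nat.cast_nonneg _)
  have h3 := moran_R_mem n hy j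
  have h4 := moran_R_mem n hy' j
  rw [← abs_of_nonneg h2, ← abs_mul, h1, abs_le]
  constructor <;> linarith [h3.1, h3.2, h4.1, h4.2]

/-- distance of two series with first difference at `j` -/
theorem moran_dist (Λ : ℕ) (R : ℝ) (a b : ℕ → ℝ) (j : ℕ) (hΛ : 2 ≤ Λ) (hR : 0 ≤ R)
    (ha : ∀ i, |a i| ≤ R * Λ) (hb : ∀ i, |b i| ≤ R * Λ) (hab : ∀ i < j, a i = b i)
    (hj : 4 * R + 1 ≤ |a j - b j|) :
    ((Λ : ℝ) ^ (j + 1))⁻¹ ≤
      |(∑' i : ℕ, a i / (Λ : ℝ) ^ (i + 1)) - ∑' i : ℕ, b i / (Λ : ℝ) ^ (i + 1)| := by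
  have hL : (2 : ℝ) ≤ Λ := by exact_mod_cast hΛ
  have hL0 : (0 : ℝ) < Λ := by linarith
  set q : ℝ := (Λ : ℝ)⁻¹ with hq
  have hq0 : 0 < q := inv_pos.2 hL0
  have hq1 : q ≤ 1 / 2 := by
    rw [hq, one_div]
    exact inv_anti₀ (by norm_num) hL
  have hqL : q * Λ = 1 := inv_mul_cancel₀ hL0.ne'
  have key : ∀ (u : ℕ → ℝ), (∀ i, |u i| ≤ R * Λ) → ∀ i, ‖u i / (Λ : ℝ) ^ (i + 1)‖ ≤ R * q ^ i := by
    intro u hu i
    rw [Real.norm_eq_abs, abs_div, abs_of_pos (pow_pos hL0 _), div_eq_mul_inv, ← inv_pow, ← hq]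
    calc |u i| * q ^ (i + 1) ≤ R * Λ * q ^ (i + 1) :=
          mul_le_mul_of_nonneg_right (hu i) (by positivity)
      _ = R * q ^ i * (q * Λ) := by ring
      _ = R * q ^ i := by rw [hqL, mul_one]
  have hgeo : Summable (fun i : ℕ => R * q ^ i) :=
    (summable_geometric_of_lt_one hq0.le (by linarith)).mul_left R
  have sa : Summable (fun i => a i / (Λ : ℝ) ^ (i + 1)) := .of_norm_bounded hgeo (key a ha)
  have sb : Summable (fun i => b i / (Λ : ℝ) ^ (i + 1)) := .of_norm_bounded hgeo (key b hb)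
  rw [← sa.tsum_sub sb]
  have sd := sa.sub sb
  rw [← sd.sum_add_tsum_nat_add (j + 1), sum_range_succ, sum_eq_zero, zero_add]
  · have hmain : (4 * R + 1) * q ^ (j + 1) ≤ |a j / (Λ : ℝ) ^ (j + 1) - b j / (Λ : ℝ) ^ (j + 1)| := by
      rw [← sub_div, abs_div, abs_of_pos (pow_pos hL0 _), div_eq_mul_inv, ← inv_pow, ← hq]
      exact mul_le_mul_of_nonneg_right hj (by positivity)
    have htail : |∑' i : ℕ, (a (i + (j + 1)) / (Λ : ℝ) ^ (i + (j + 1) + 1) -
        b (i + (j + 1)) / (Λ : ℝ) ^ (i + (j + 1) + 1))| ≤ 4 * R * q ^ (j + 1) := by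
      rw [← Real.norm_eq_abs]
      have h1 : HasSum (fun i : ℕ => 2 * R * q ^ (j + 1) * q ^ i)
          (2 * R * q ^ (j + 1) * (1 - q)⁻¹) :=
        (hasSum_geometric_of_lt_one hq0.le (by linarith)).mul_left _
      refine (tsum_of_norm_bounded h1 (fun i => ?_)).trans ?_
      · have e1 := key a ha (i + (j + 1))
        have e2 := key b hb (i + (j + 1))
        refine (norm_sub_le _ _).trans ((add_le_add e1 e2).trans (le_of_eq ?_))
        rw [pow_add]
        ring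
      · have : (1 - q)⁻¹ ≤ 2 := by
          have h3 : (1 / 2 : ℝ) ≤ 1 - q := by linarith
          calc (1 - q)⁻¹ ≤ (1 / 2 : ℝ)⁻¹ := inv_anti₀ (by norm_num) h3
            _ = 2 := by norm_num
        calc 2 * R * q ^ (j + 1) * (1 - q)⁻¹ ≤ 2 * R * q ^ (j + 1) * 2 :=
              mul_le_mul_of_nonneg_left this (by positivity)
          _ = 4 * R * q ^ (j + 1) := by ring
    have hfin : ((Λ : ℝ) ^ (j + 1))⁻¹ = q ^ (j + 1) := by rw [hq, inv_pow]
    rw [hfin]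
    have := abs_sub_abs_le_abs_add (a j / (Λ : ℝ) ^ (j + 1) - b j / (Λ : ℝ) ^ (j + 1))
      (∑' i : ℕ, (a (i + (j + 1)) / (Λ : ℝ) ^ (i + (j + 1) + 1) -
        b (i + (j + 1)) / (Λ : ℝ) ^ (i + (j + 1) + 1)))
    nlinarith [this, hmain, htail]
  · intro i hi
    rw [hab i (mem_range.1 hi), sub_self]

theorem st_MORAN : ST_MORAN := by
  intro m Λ R s0 c0 F x0 n z hΛ hR hs0 hc0 hn hz hsep hF hprod
  have hL : (2 : ℝ) ≤ Λ := by exact_mod_cast hΛ
  have hL0 : (0 : ℝ) < Λ := by linarith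
  let X : ℝ → Fin m → ℝ := fun y c => x0 c + ∑' j : ℕ, z j (moranD n y j) c / (Λ : ℝ) ^ (j + 1)
  let I : Set ℝ := Set.Ico 0 1
  have hXF : X '' I ⊆ F := by
    rintro _ ⟨y, hy, rfl⟩
    exact hF (moranD n y) (moran_D_lt n hn hy)
  -- the basic inequality
  have key : ∀ y ∈ I, ∀ y' ∈ I, |y - y'| ≤ ((Λ : ℝ) ^ s0 / c0) * dist (X y) (X y') ^ s0 := by
    intro y hy y' hy'
    have hprodpos : ∀ j, 0 < ∏ i ∈ range j, (n i : ℝ) := fun j =>
      prod_pos (fun i _ => by exact_mod_cast hn i)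
    by_cases hall : ∃ j, moranD n y j ≠ moranD n y' j
    · classical
      let j := Nat.find hall
      have hj : moranD n y j ≠ moranD n y' j := Nat.find_spec hall
      have hlt : ∀ i < j, moranD n y i = moranD n y' i := fun i hi => by
        have := Nat.find_min hall hi
        simpa using this
      obtain ⟨c, hc⟩ := hsep j _ _ (moran_D_lt n hn hy j) (moran_D_lt n hn hy' j) hj
      have h1 := moran_dist Λ R (fun i => z i (moranD n y i) c) (fun i => z i (moranD n y' i) c) j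
        hΛ hR (fun i => hz i _ c (moran_D_lt n hn hy i)) (fun i => hz i _ c (moran_D_lt n hn hy' i))
        (fun i hi => by simp only [hlt i hi]) hc
      have h2 : ((Λ : ℝ) ^ (j + 1))⁻¹ ≤ dist (X y) (X y') := by
        refine h1.trans ?_
        have h3 := dist_le_pi_dist (X y) (X y') c
        rw [Real.dist_eq] at h3
        have e : X y c - X y' c = (∑' i : ℕ, z i (moranD n y i) c / (Λ : ℝ) ^ (i + 1)) -
            ∑' i : ℕ, z i (moranD n y' i) c / (Λ : ℝ) ^ (i + 1) := by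
          simp only [X]
          ring
        rwa [e] at h3
      have h4 := moran_abs n hy hy' j hlt
      have h5 := hprod j
      have h6 : c0 * (Λ : ℝ) ^ (s0 * (j : ℝ)) * |y - y'| ≤ 1 :=
        (mul_le_mul_of_nonneg_right h5 (abs_nonneg _)).trans h4
      have h7 : (0 : ℝ) < (Λ : ℝ) ^ (s0 * (j : ℝ)) := Real.rpow_pos_of_pos hL0 _
      have h8 : |y - y'| ≤ ((Λ : ℝ) ^ (s0 * (j : ℝ)))⁻¹ / c0 := by
        rw [le_div_iff₀ hc0, ← one_div, le_div_iff₀ h7]
        linarith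
      have h9 : (((Λ : ℝ) ^ (j + 1))⁻¹) ^ s0 ≤ dist (X y) (X y') ^ s0 :=
        Real.rpow_le_rpow (by positivity) h2 hs0.le
      have h10 : (((Λ : ℝ) ^ (j + 1))⁻¹) ^ s0 = ((Λ : ℝ) ^ (s0 * (j : ℝ)))⁻¹ * ((Λ : ℝ) ^ s0)⁻¹ := by
        rw [Real.inv_rpow (by positivity), ← Real.rpow_natCast, ← Real.rpow_mul hL0.le, ← mul_inv,
          ← Real.rpow_add hL0]
        congr 2
        push_cast
        ring
      have h11 : (0 : ℝ) < (Λ : ℝ) ^ s0 := Real.rpow_pos_of_pos hL0 _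
      calc |y - y'| ≤ ((Λ : ℝ) ^ (s0 * (j : ℝ)))⁻¹ / c0 := h8
        _ = ((Λ : ℝ) ^ s0 / c0) * (((Λ : ℝ) ^ (s0 * (j : ℝ)))⁻¹ * ((Λ : ℝ) ^ s0)⁻¹) := by
            field_simp
        _ = ((Λ : ℝ) ^ s0 / c0) * (((Λ : ℝ) ^ (j + 1))⁻¹) ^ s0 := by rw [h10]
        _ ≤ _ := mul_le_mul_of_nonneg_left h9 (by positivity)
    · push Not at hall
      have hz0 : |y - y'| = 0 := by
        by_contra hne
        have hpos : 0 < |y - y'| := lt_of_le_of_ne (abs_nonneg _) (Ne.symm hne)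
        have h1 : ∀ j : ℕ, c0 * (Λ : ℝ) ^ (s0 * (j : ℝ)) * |y - y'| ≤ 1 := fun j =>
          (mul_le_mul_of_nonneg_right (hprod j) (abs_nonneg _)).trans
            (moran_abs n hy hy' j (fun i _ => hall i))
        have h2 : 1 < (Λ : ℝ) ^ s0 := Real.one_lt_rpow (by linarith) hs0
        obtain ⟨N, hN⟩ := pow_unbounded_of_one_lt (1 / (c0 * |y - y'|)) h2
        have h3 := h1 N
        rw [Real.rpow_mul hL0.le, Real.rpow_natCast] at h3
        rw [div_lt_iff₀ (by positivity)] at hN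
        nlinarith
      rw [hz0]
      positivity
  have hinj : Set.InjOn X I := by
    intro y hy y' hy' h
    have := key y hy y' hy'
    rw [h, dist_self, Real.zero_rpow hs0.ne', mul_zero] at this
    have h0 : |y - y'| = 0 := le_antisymm this (abs_nonneg _)
    exact sub_eq_zero.1 (abs_eq_zero.1 h0)
  let f : (Fin m → ℝ) → ℝ := Function.invFunOn X I
  have hf : ∀ y ∈ I, f (X y) = y := fun y hy => hinj.leftInvOn_invFunOn hy
  have himg : f '' (X '' I) = I := by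
    ext y
    constructor
    · rintro ⟨_, ⟨w, hw, rfl⟩, rfl⟩
      rw [hf w hw]; exact hw
    · intro hy
      exact ⟨X y, ⟨y, hy, rfl⟩, hf y hy⟩
  have hC : (0 : ℝ) ≤ (Λ : ℝ) ^ s0 / c0 := by positivity
  have hr : ((s0.toNNReal : NNReal) : ℝ) = s0 := Real.coe_toNNReal _ hs0.le
  have hhol : HolderOnWith ((Λ : ℝ) ^ s0 / c0).toNNReal s0.toNNReal f (X '' I) := by
    rintro _ ⟨y, hy, rfl⟩ _ ⟨y', hy', rfl⟩
    rw [hf y hy, hf y' hy', edist_dist, edist_dist, hr,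
      ENNReal.ofReal_rpow_of_nonneg dist_nonneg hs0.le]
    have e2 : ((((Λ : ℝ) ^ s0 / c0).toNNReal : NNReal) : ENNReal) =
        ENNReal.ofReal ((Λ : ℝ) ^ s0 / c0) := rfl
    rw [e2, ← ENNReal.ofReal_mul hC]
    exact ENNReal.ofReal_le_ofReal (by rw [Real.dist_eq]; exact key y hy y' hy')
  have hd := hhol.dimH_image_le (Real.toNNReal_pos.2 hs0)
  rw [himg] at hd
  have hI : dimH I = 1 := by
    have h1 : dimH I = (Module.finrank ℝ ℝ : ENNReal) := by
      refine Real.dimH_of_nonempty_interior ⟨1 / 2, ?_⟩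
      rw [interior_Ico]
      constructor <;> norm_num
    rw [h1, Module.finrank_self, Nat.cast_one]
  rw [hI] at hd
  have h1 : ENNReal.ofReal s0 ≤ dimH (X '' I) := by
    have hd' : 1 ≤ dimH (X '' I) / ENNReal.ofReal s0 := hd
    have hpos : ENNReal.ofReal s0 ≠ 0 := by
      rw [Ne, ENNReal.ofReal_eq_zero, not_le]; exact hs0
    have := (ENNReal.le_div_iff_mul_le (Or.inl hpos) (Or.inl ENNReal.ofReal_ne_top)).1 hd'
    rwa [one_mul] at this
  exact h1.trans (dimH_mono hXF)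

end Pool.Agent.Helper70.DK
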